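import Pool.Agent.H27.G.R_pool_sql_team_seeded_63374d34.N879.PU.Asm1

set_option autoImplicit false

/-! Project PU: assembly, second part. -/

namespace Pool.Agent.N879.PU

open Complex Filter Topology MeasureTheory Set
open Pool.Agent.TH612.GS (z zN PN mP SN SP GM zr Sep z_cont PN_cont fz fz_norm fz_cont fz_prod cheb SN_cont SP_cont
  GM0_cont zr_cont Sep_meas exists_cut)
open Pool.Agent.N879.PZ (Wb)

noncomputable section

variable {k : ℕ}

/-- the theorem -/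
def S_MAINU2 : Prop := ∀ k : ℕ, ∃ δ C₀ T₀ : ℝ, 0 < δ ∧ ∀ T H U : ℝ, T₀ ≤ T → 0 < H → H ≤ T → U ≤ T →
  T * Real.log T ^ C₀ ≤ H * U →
  volume (Icc T (T + H) \ Gu U ((H * U / T) ^ (3 * δ))) ≤ ENNReal.ofReal (H * (H * U / T) ^ (-δ)) ∧
  (T ^ (1 / 2 : ℝ) ≤ U → Icc T (T + H) ⊆ Gu U ((H * U / T) ^ (3 * δ))) ∧
  mP (Fin k ⊕ Fin k) U {γ | H * (H * U / T) ^ (-δ) <
    ‖(∫ t in Gu U ((H * U / T) ^ (3 * δ)) ∩ Icc T (T + H), ∏ i, fs z i (t + γ i)) - H * zr γ‖} ≤
      ENNReal.ofReal (U ^ (2 * k) * (H * U / T) ^ (-δ))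

/-- Markov -/
lemma markov {Ω : Type*} [MeasurableSpace Ω] {μ : Measure Ω} {g : Ω → ℝ} (hg : AEMeasurable g μ)
    {B lam : ℝ} (hl : 0 < lam) (h : ∫⁻ x, ENNReal.ofReal (g x) ∂μ ≤ ENNReal.ofReal B) :
    μ {x | lam < g x} ≤ ENNReal.ofReal (B / lam) := by
  have h1 : AEMeasurable (fun x => ENNReal.ofReal (g x)) μ := hg.ennreal_ofReal
  have h2 := meas_ge_le_lintegral_div h1 (ε := ENNReal.ofReal lam)
    (by rw [Ne, ENNReal.ofReal_eq_zero, not_le]; positivity) ENNReal.ofReal_ne_top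
  refine (measure_mono ?_).trans (h2.trans ?_)
  · intro x hx
    simp only [mem_ofPred_eq] at hx ⊢
    exact ENNReal.ofReal_le_ofReal hx.le
  · rw [ENNReal.ofReal_div_of_pos (by positivity)]
    exact ENNReal.div_le_div_right h _

lemma fs_norm (f : ℝ → ℂ) (i : Fin k ⊕ Fin k) (u : ℝ) : ‖fs f i u‖ = ‖f u‖ := fz_norm f i u

lemma fs_cont {f : ℝ → ℂ} (hf : Continuous f) (i : Fin k ⊕ Fin k) : Continuous (fs f i) := fz_cont hf i

lemma fs_prod (f : ℝ → ℂ) (t : ℝ) (γ : Fin k ⊕ Fin k → ℝ) :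
    ∏ i, fs f i (t + γ i) = ∏ j : Fin k, f (t + γ (Sum.inl j)) * (starRingEnd ℂ) (f (t + γ (Sum.inr j))) :=
  fz_prod f t γ

lemma Gu_meas (U V : ℝ) : MeasurableSet (Gu U V) := by
  unfold Gu
  refine (isClosed_le ?_ continuous_const).measurableSet
  have h2 : Continuous fun u : ℝ => ‖z u‖ ^ 2 := z_cont.norm.pow 2
  have h1 : ∀ t : ℝ, ∫ u in t..(t + U), ‖z u‖ ^ 2 =
      (∫ u in (0 : ℝ)..(t + U), ‖z u‖ ^ 2) - ∫ u in (0 : ℝ)..t, ‖z u‖ ^ 2 := by
    intro t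
    rw [intervalIntegral.integral_interval_sub_left]
    · exact (h2.intervalIntegrable _ _)
    · exact (h2.intervalIntegrable _ _)
  simp only [h1]
  have h3 : Continuous fun x : ℝ => ∫ u in (0 : ℝ)..x, ‖z u‖ ^ 2 :=
    intervalIntegral.continuous_primitive (fun a b => h2.intervalIntegrable a b) 0
  exact (h3.comp (by fun_prop)).sub h3

/-- the kernel for the conjugated factors -/
lemma ker_fs {C1 : ℝ} {A1 : ℕ} {T H U : ℝ} {N : ℕ} (i : Fin k ⊕ Fin k)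
    (h : ∀ F : ℝ → ℂ, Wb T (T + H) F →
      ∫ c in (0 : ℝ)..U, ‖∫ t in T..(T + H), F t * (z (t + c) - PN N (t + c))‖ ^ 2 ≤
        C1 * Real.log T ^ A1 * (H * U / N + T) * ∫ t in T..(T + H), ‖F t‖ ^ 2)
    (F : ℝ → ℂ) (hF : Wb T (T + H) F) :
    ∫ c in (0 : ℝ)..U, ‖∫ t in T..(T + H), F t * (fs z i (t + c) - fs (PN N) i (t + c))‖ ^ 2 ≤
      C1 * Real.log T ^ A1 * (H * U / N + T) * ∫ t in T..(T + H), ‖F t‖ ^ 2 := by
  cases i with
  | inl j => exact h F hF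
  | inr j =>
    obtain ⟨hm, M, hM⟩ := hF
    have hF' : Wb T (T + H) fun t => (starRingEnd ℂ) (F t) :=
      ⟨Complex.continuous_conj.measurable.comp hm, M, fun t ht => by rw [RCLike.norm_conj]; exact hM t ht⟩
    have h1 := h _ hF'
    have e1 : ∀ c : ℝ, ‖∫ t in T..(T + H), F t * (fs z (Sum.inr j) (t + c) - fs (PN N) (Sum.inr j) (t + c))‖ ^ 2 =
        ‖∫ t in T..(T + H), (starRingEnd ℂ) (F t) * (z (t + c) - PN N (t + c))‖ ^ 2 := by
      intro c
      have e2 : ∫ t in T..(T + H), F t * (fs z (Sum.inr j) (t + c) - fs (PN N) (Sum.inr j) (t + c)) =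
          (starRingEnd ℂ) (∫ t in T..(T + H), (starRingEnd ℂ) (F t) * (z (t + c) - PN N (t + c))) := by
        rw [← Pool.Agent.TH612.GS.int_conj]
        refine intervalIntegral.integral_congr fun t _ => ?_
        simp only [map_mul, map_sub, Complex.conj_conj]
        rfl
      rw [e2, RCLike.norm_conj]
    simp only [e1]
    refine h1.trans (le_of_eq ?_)
    simp only [RCLike.norm_conj]

lemma win_z {U V t : ℝ} (ht : t ∈ Gu U V) (i : Fin k ⊕ Fin k) :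
    ∫ c in (0 : ℝ)..U, ‖fs z i (t + c)‖ ^ 2 ≤ U * V := by
  simp only [fs_norm]
  rw [intervalIntegral.integral_comp_add_left (fun u => ‖z u‖ ^ 2) t, add_zero]
  exact ht

lemma card_ii (k : ℕ) : Fintype.card (Fin k ⊕ Fin k) = 2 * k := by
  rw [Fintype.card_sum, Fintype.card_fin]; ring

/-- the integral over an interval -/
lemma int_model (hD : Pool.Agent.TH612.GS.S_DIAG) {N : ℕ} (hN : 1 ≤ N) {T H : ℝ} (hT : 0 ≤ T) (hH : 0 ≤ H)
    (γ : Fin k ⊕ Fin k → ℝ) :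
    ‖(∫ t in Icc T (T + H), ∏ i, fs (PN N) i (t + γ i)) - H * SN N γ‖ ≤ 4 * (N : ℝ) ^ (3 * k) := by
  have h1 := hD k N (T + H) γ hN (by linarith)
  have h2 := hD k N T γ hN hT
  have hc : Continuous fun t : ℝ => ∏ j : Fin k, PN N (t + γ (Sum.inl j)) *
      (starRingEnd ℂ) (PN N (t + γ (Sum.inr j))) := by
    refine continuous_finsetProd _ fun j _ => ?_
    exact ((PN_cont N).comp (by fun_prop)).mul (Complex.continuous_conj.comp ((PN_cont N).comp (by fun_prop)))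
  have e : (∫ t in Icc T (T + H), ∏ i, fs (PN N) i (t + γ i)) - H * SN N γ =
      ((∫ t in (0:ℝ)..(T + H), ∏ j : Fin k, PN N (t + γ (Sum.inl j)) *
        (starRingEnd ℂ) (PN N (t + γ (Sum.inr j)))) - ((T + H : ℝ) : ℂ) * SN N γ) -
      ((∫ t in (0:ℝ)..T, ∏ j : Fin k, PN N (t + γ (Sum.inl j)) *
        (starRingEnd ℂ) (PN N (t + γ (Sum.inr j)))) - T * SN N γ) := by
    simp only [fs_prod]
    rw [integral_Icc_eq_integral_Ioc, ← intervalIntegral.integral_of_le (by linarith : T ≤ T + H),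
      ← intervalIntegral.integral_interval_sub_left (hc.intervalIntegrable 0 (T + H)) (hc.intervalIntegrable 0 T)]
    push_cast
    ring
  rw [e]
  refine (norm_sub_le _ _).trans ?_
  linarith

lemma prod_intOn {a b : ℝ} {D : Set ℝ} (hD : D ⊆ Icc a b) {f : ℝ → ℂ} (hf : Continuous f)
    (γ : Fin k ⊕ Fin k → ℝ) : IntegrableOn (fun t => ∏ i, fs f i (t + γ i)) D := by
  refine IntegrableOn.mono_set ?_ hD
  refine ContinuousOn.integrableOn_compact isCompact_Icc (Continuous.continuousOn ?_)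
  exact continuous_finsetProd _ fun i _ => (fs_cont hf i).comp (by fun_prop)

/-- the decomposition -/
lemma decomp {T H U V : ℝ} (N : ℕ) (γ : Fin k ⊕ Fin k → ℝ) (Z : ℂ) :
    (∫ t in Gu U V ∩ Icc T (T + H), ∏ i, fs z i (t + γ i)) - Z =
      (∫ t in Gu U V ∩ Icc T (T + H), (∏ i, fs z i (t + γ i) - ∏ i, fs (PN N) i (t + γ i))) -
      (∫ t in Icc T (T + H) \ Gu U V, ∏ i, fs (PN N) i (t + γ i)) +
      ((∫ t in Icc T (T + H), ∏ i, fs (PN N) i (t + γ i)) - Z) := by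
  have i1 := prod_intOn (D := Gu U V ∩ Icc T (T + H)) inter_subset_right z_cont γ
  have i2 := prod_intOn (D := Gu U V ∩ Icc T (T + H)) inter_subset_right (PN_cont N) γ
  have i3 := prod_intOn (D := Icc T (T + H)) (Subset.refl _) (PN_cont N) γ
  rw [integral_sub i1 i2, ← integral_inter_add_sdiff (Gu_meas U V) i3, inter_comm (Icc T (T + H))]
  ring

end

end Pool.Agent.N879.PU
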