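import Pool.Agent.H27.G.R_pool_sql_team_seeded_63374d34.N879.PU.Stm
import Pool.Agent.H27.G.R_pool_sql_team_seeded_63374d34.N879.QM.Mvg

set_option autoImplicit false

/-! Project PU (helper879), MV: mean value theorem for a dyadic block and its dual (helper712). -/

namespace Pool.Agent.N879.PU

open Complex Filter Topology MeasureTheory Set
open Pool.Agent.N879.PZ (Wb)

noncomputable section

namespace Mvaux

lemma wb_int {a T : ℝ} (haT : a ≤ T) {F g : ℝ → ℂ} (hF : Wb a T F) (hg : ContinuousOn g (Icc a T)) :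
    IntervalIntegrable (fun t => F t * g t) volume a T := by
  obtain ⟨hm, M, hM⟩ := hF
  obtain ⟨B, hB⟩ := isCompact_Icc.exists_bound_of_continuousOn hg
  rw [intervalIntegrable_iff_integrableOn_Icc_of_le haT]
  refine Integrable.of_bound (μ := volume.restrict (Icc a T)) ?_ (M * B) ?_
  · exact hm.aestronglyMeasurable.mul (hg.aestronglyMeasurable measurableSet_Icc)
  · rw [ae_restrict_iff' measurableSet_Icc]
    refine Filter.Eventually.of_forall fun t ht => ?_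
    rw [norm_mul]
    exact mul_le_mul (hM t ht) (hB t ht) (norm_nonneg _) ((norm_nonneg _).trans (hM t ht))

lemma wb_sq {a T : ℝ} (haT : a ≤ T) {F : ℝ → ℂ} (hF : Wb a T F) :
    IntervalIntegrable (fun t => ‖F t‖ ^ 2) volume a T := by
  obtain ⟨hm, M, hM⟩ := hF
  rw [intervalIntegrable_iff_integrableOn_Icc_of_le haT]
  refine Measure.integrableOn_of_bounded (M := M ^ 2) ?_ ?_ ?_
  · exact isCompact_Icc.measure_lt_top.ne
  · exact (hm.norm.pow_const 2).aestronglyMeasurable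
  · rw [ae_restrict_iff' measurableSet_Icc]
    refine Filter.Eventually.of_forall fun t ht => ?_
    rw [norm_pow, norm_norm]
    exact pow_le_pow_left₀ (norm_nonneg _) (hM t ht) 2

lemma cpow_eq {n : ℕ} (hn : 1 ≤ n) (u : ℝ) :
    (n : ℂ) ^ (-(I * u)) = cexp (-(I * (u * Real.log n : ℝ))) := by
  have hn0 : (n : ℂ) ≠ 0 := by
    have : n ≠ 0 := by omega
    exact_mod_cast this
  rw [Complex.cpow_def_of_ne_zero hn0, ← Complex.natCast_log]
  congr 1
  push_cast
  ring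

lemma cpow_cont {n : ℕ} (hn : 1 ≤ n) : Continuous fun u : ℝ => (n : ℂ) ^ (-(I * (u : ℂ))) := by
  have : (fun u : ℝ => (n : ℂ) ^ (-(I * (u : ℂ)))) =
      fun u : ℝ => cexp (-(I * (u * Real.log n : ℝ))) := funext fun u => cpow_eq hn u
  rw [this]
  fun_prop

lemma space {M m n : ℕ} (hM : 1 ≤ M) (hm : M ≤ m) (hmn : m < n) (hn : n ≤ 2 * M) :
    1 / (2 * (M : ℝ)) ≤ Real.log n - Real.log m := by
  have hM0 : (0 : ℝ) < M := by exact_mod_cast hM
  have hm0 : (0 : ℝ) < m := by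
    have : 0 < m := by omega
    exact_mod_cast this
  have hn0 : (0 : ℝ) < n := by
    have : 0 < n := by omega
    exact_mod_cast this
  have h1 := Real.one_sub_inv_le_log_of_pos (div_pos hn0 hm0)
  rw [Real.log_div hn0.ne' hm0.ne', inv_div] at h1
  refine le_trans ?_ h1
  have h2 : (m : ℝ) + 1 ≤ n := by exact_mod_cast hmn
  have h3 : (n : ℝ) ≤ 2 * M := by exact_mod_cast hn
  calc 1 / (2 * (M : ℝ)) ≤ 1 / n := one_div_le_one_div_of_le hn0 h3
    _ ≤ (n - m) / n := div_le_div_of_nonneg_right (by linarith) hn0.le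
    _ = 1 - m / n := by field_simp

lemma sum_eq {E : Type*} [AddCommMonoid E] (M : ℕ) (f : ℕ → E) :
    ∑ n ∈ Finset.Icc M (2 * M), f n = ∑ i : Fin (M + 1), f (M + i) := by
  have h : Finset.Icc M (2 * M) = Finset.Ico M (2 * M + 1) := by
    ext x
    simp only [Finset.mem_Icc, Finset.mem_Ico]
    omega
  rw [h, Finset.sum_Ico_eq_sum_range]
  have h2 : 2 * M + 1 - M = M + 1 := by omega
  rw [h2, Finset.sum_range]

end Mvaux

open Mvaux

theorem t_MVS : S_MVS := by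
  obtain ⟨C, hC, hMV⟩ := Pool.Agent.N879.QM.t_MVG
  refine ⟨2 * C, by positivity, ?_⟩
  intro M a b c hM hab
  have hM0 : (0 : ℝ) < M := by exact_mod_cast hM
  have hS : 0 ≤ ∑ n ∈ Finset.Icc M (2 * M), ‖c n‖ ^ 2 := Finset.sum_nonneg fun _ _ => by positivity
  rcases eq_or_lt_of_le hab with rfl | hab'
  · rw [intervalIntegral.integral_same]
    have : 0 ≤ a - a + M := by linarith
    positivity
  obtain ⟨A, hA⟩ : ∃ A, A = (b - a) / 2 := ⟨_, rfl⟩
  obtain ⟨m₀, hm₀⟩ : ∃ m₀, m₀ = (a + b) / 2 := ⟨_, rfl⟩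
  have hA0 : 0 < A := by rw [hA]; linarith
  have ha : -A + m₀ = a := by rw [hA, hm₀]; ring
  have hb : A + m₀ = b := by rw [hA, hm₀]; ring
  have h1 := hMV (M + 1) (fun i => Real.log ((M + i : ℕ) : ℝ))
    (fun i => c (M + i) * cexp (-(I * (m₀ * Real.log ((M + i : ℕ) : ℝ) : ℝ)))) A (1 / (2 * (M : ℝ)))
    hA0 (by positivity) (by
      intro i j hij
      have hi := i.2
      have hj := j.2
      have hne : (i : ℕ) ≠ j := fun h => hij (Fin.ext h)
      rcases lt_or_gt_of_ne hne with h | h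
      · have := space hM (m := M + i) (n := M + j) (by omega) (by omega) (by omega)
        rw [abs_sub_comm]
        exact this.trans (le_abs_self _)
      · have := space hM (m := M + j) (n := M + i) (by omega) (by omega) (by omega)
        exact this.trans (le_abs_self _))
  have e1 : ∫ u in a..b, ‖∑ n ∈ Finset.Icc M (2 * M), c n * (n : ℂ) ^ (-(I * u))‖ ^ 2 =
      ∫ α in (-A)..A, ‖∑ i : Fin (M + 1), c (M + i) *
        cexp (-(I * (m₀ * Real.log ((M + i : ℕ) : ℝ) : ℝ))) *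
        cexp (-(I * (α * Real.log ((M + i : ℕ) : ℝ) : ℝ)))‖ ^ 2 := by
    have e2 := intervalIntegral.integral_comp_add_right (a := -A) (b := A)
      (fun u : ℝ => ‖∑ n ∈ Finset.Icc M (2 * M), c n * (n : ℂ) ^ (-(I * u))‖ ^ 2) m₀
    rw [ha, hb] at e2
    rw [← e2]
    refine intervalIntegral.integral_congr fun α _ => ?_
    rw [sum_eq]
    congr 2
    refine Finset.sum_congr rfl fun i _ => ?_
    rw [cpow_eq (n := M + i) (by omega), mul_assoc, ← Complex.exp_add]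
    congr 2
    push_cast
    ring
  have e3 : ∀ i : Fin (M + 1), ‖c (M + i) * cexp (-(I * (m₀ * Real.log ((M + i : ℕ) : ℝ) : ℝ)))‖ ^ 2 =
      ‖c (M + i)‖ ^ 2 := by
    intro i
    have e : -(I * ((m₀ * Real.log ((M + i : ℕ) : ℝ) : ℝ) : ℂ)) =
        ((-(m₀ * Real.log ((M + i : ℕ) : ℝ)) : ℝ) : ℂ) * I := by
      push_cast
      ring
    rw [norm_mul, e, Complex.norm_exp_ofReal_mul_I, mul_one]
  simp only [e3] at h1
  rw [e1]
  refine h1.trans ?_
  rw [← sum_eq M fun n => ‖c n‖ ^ 2]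
  refine mul_le_mul_of_nonneg_right ?_ hS
  have e4 : 1 / (1 / (2 * (M : ℝ))) = 2 * M := by field_simp
  rw [e4]
  have : A + 2 * M ≤ 2 * ((b - a) + M) := by
    rw [hA]
    linarith
  calc C * (A + 2 * M) ≤ C * (2 * ((b - a) + M)) := mul_le_mul_of_nonneg_left this hC.le
    _ = 2 * C * ((b - a) + M) := by ring

theorem t_MVT (h : S_MVS) : S_MVT := by
  obtain ⟨C, hC, hI⟩ := h
  refine ⟨C, hC, ?_⟩
  intro M a b F hM hab hF
  have hM0 : (0 : ℝ) < M := by exact_mod_cast hM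
  obtain ⟨D, hD⟩ : ∃ D : ℝ, D = C * ((b - a) + M) := ⟨_, rfl⟩
  have hDpos : 0 < D := by
    rw [hD]
    have : 0 < (b - a) + M := by linarith
    positivity
  rw [← hD]
  obtain ⟨ν, hν⟩ : ∃ ν : ℕ → ℂ, ν = fun (n : ℕ) => ∫ t in a..b, F t * (n : ℂ) ^ (-(I * (t : ℂ))) := ⟨_, rfl⟩
  obtain ⟨y, hy⟩ : ∃ y : ℕ → ℂ, y = fun n => (starRingEnd ℂ) (ν n) := ⟨_, rfl⟩
  obtain ⟨G, hG⟩ : ∃ G : ℝ → ℂ, G = fun (t : ℝ) => ∑ n ∈ Finset.Icc M (2 * M), y n * (n : ℂ) ^ (-(I * (t : ℂ))) :=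
    ⟨_, rfl⟩
  have hc : ∀ n ∈ Finset.Icc M (2 * M), Continuous fun t : ℝ => (n : ℂ) ^ (-(I * (t : ℂ))) := by
    intro n hn
    exact cpow_cont (hM.trans (Finset.mem_Icc.1 hn).1)
  have hGc : Continuous G := by
    rw [hG]
    exact continuous_finsetSum _ fun n hn => continuous_const.mul (hc n hn)
  obtain ⟨Z, hZ⟩ : ∃ Z : ℝ, Z = ∑ n ∈ Finset.Icc M (2 * M), ‖ν n‖ ^ 2 := ⟨_, rfl⟩
  have hyv : ∀ n, ‖y n‖ = ‖ν n‖ := fun n => by rw [hy]; exact Complex.norm_conj _
  have hGI : ∫ t in a..b, ‖G t‖ ^ 2 ≤ D * Z := by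
    have := hI M a b y hM hab
    simp only [hyv] at this
    rw [hG, hZ, hD]
    exact this
  have e1 : (Z : ℂ) = ∫ t in a..b, F t * G t := by
    have e2 : ∀ t : ℝ, F t * G t = ∑ n ∈ Finset.Icc M (2 * M), y n * (F t * (n : ℂ) ^ (-(I * t))) := by
      intro t
      rw [hG]
      simp only
      rw [Finset.mul_sum]
      refine Finset.sum_congr rfl fun p _ => ?_
      ring
    simp only [e2]
    rw [intervalIntegral.integral_finsetSum]
    · rw [hZ]
      push_cast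
      refine Finset.sum_congr rfl fun n _ => ?_
      rw [intervalIntegral.integral_const_mul]
      have e3 : (∫ t in a..b, F t * (n : ℂ) ^ (-(I * t))) = ν n := by rw [hν]
      have e4 : y n = (starRingEnd ℂ) (ν n) := by rw [hy]
      rw [e3, e4, mul_comm, Complex.mul_conj, Complex.normSq_eq_norm_sq]
      push_cast
      rfl
    · intro n hn
      exact (wb_int hab hF (hc n hn).continuousOn).const_mul _
  have e3 : Z ≤ ∫ t in a..b, ‖F t * G t‖ := by
    have h3 : ‖((Z : ℝ) : ℂ)‖ ≤ ∫ t in a..b, ‖F t * G t‖ := by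
      rw [e1]
      exact intervalIntegral.norm_integral_le_integral_norm hab
    rw [Complex.norm_real, Real.norm_eq_abs] at h3
    exact (le_abs_self Z).trans h3
  have hG2 : IntervalIntegrable (fun t => ‖G t‖ ^ 2) volume a b :=
    (hGc.norm.pow 2).intervalIntegrable _ _
  have e4 : ∫ t in a..b, ‖F t * G t‖ ≤ ∫ t in a..b, (D / 2 * ‖F t‖ ^ 2 + (1 / (2 * D)) * ‖G t‖ ^ 2) := by
    refine intervalIntegral.integral_mono_on hab (wb_int hab hF hGc.continuousOn).norm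
      (((wb_sq hab hF).const_mul _).add (hG2.const_mul _)) ?_
    intro t _
    rw [norm_mul]
    have h5 : 0 ≤ (D * ‖F t‖ - ‖G t‖) ^ 2 := sq_nonneg _
    have h6 : D / 2 * ‖F t‖ ^ 2 + (1 / (2 * D)) * ‖G t‖ ^ 2 - ‖F t‖ * ‖G t‖ =
        (D * ‖F t‖ - ‖G t‖) ^ 2 / (2 * D) := by
      field_simp
      ring
    have h7 : 0 ≤ (D * ‖F t‖ - ‖G t‖) ^ 2 / (2 * D) := by positivity
    linarith
  have e5 : ∫ t in a..b, (D / 2 * ‖F t‖ ^ 2 + (1 / (2 * D)) * ‖G t‖ ^ 2) =
      D / 2 * (∫ t in a..b, ‖F t‖ ^ 2) + (1 / (2 * D)) * ∫ t in a..b, ‖G t‖ ^ 2 := by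
    rw [intervalIntegral.integral_add ((wb_sq hab hF).const_mul _) (hG2.const_mul _),
      intervalIntegral.integral_const_mul, intervalIntegral.integral_const_mul]
  have e6 : (1 / (2 * D)) * ∫ t in a..b, ‖G t‖ ^ 2 ≤ Z / 2 := by
    calc (1 / (2 * D)) * ∫ t in a..b, ‖G t‖ ^ 2 ≤ (1 / (2 * D)) * (D * Z) := by
          refine mul_le_mul_of_nonneg_left hGI (by positivity)
      _ = Z / 2 := by
          field_simp
  have e7 : ∑ n ∈ Finset.Icc M (2 * M), ‖∫ t in a..b, F t * (n : ℂ) ^ (-(I * t))‖ ^ 2 = Z := by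
    rw [hZ, hν]
  rw [e7]
  linarith

end

end Pool.Agent.N879.PU
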