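import Pool.Agent.H27.G.R_pool_sql_team_seeded_63374d34.N879.PU.Stm
import Pool.Agent.H27.G.R_pool_sql_team_seeded_63374d34.N879.PZ.Tw
import Pool.Agent.H27.G.R_pool_sql_team_seeded_63374d34.N879.PZ.Afx
import Pool.Agent.H27.G.R_pool_sql_team_seeded_63374d34.N879.PZ.Crd
import Pool.Agent.H27.G.R_pool_sql_team_seeded_63374d34.N879.PZ.M4l

set_option autoImplicit false

/-! Project PU (helper879), task SMS (helper507): the second moment of zeta in short intervals. -/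

namespace Pool.Agent.N879.PU

open Complex Filter Topology MeasureTheory Set
open Pool.Agent.TH612.GS (z)
open Pool.Agent.Y969.GP (ff ht lam FR cr)
open Pool.Agent.N879.PZ (ee)

namespace Smsaux

/-- `1/|log(n/m)| ≤ n/(n-m)` -/
lemma lam_inv {m n : ℕ} (hm : 1 ≤ m) (h : m < n) :
    |Real.log n - Real.log m|⁻¹ ≤ (n : ℝ) / ((n : ℝ) - m) := by
  have hm0 : (0 : ℝ) < m := by exact_mod_cast hm
  have hmn : (m : ℝ) < n := by exact_mod_cast h
  have hn0 : (0 : ℝ) < n := hm0.trans hmn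
  have hd : (0 : ℝ) < (n : ℝ) - m := sub_pos.2 hmn
  have h1 : ((n : ℝ) - m) / n ≤ Real.log n - Real.log m := by
    rw [← Real.log_div hn0.ne' hm0.ne']
    have h2 := Real.one_sub_inv_le_log_of_pos (div_pos hn0 hm0)
    rw [inv_div] at h2
    calc ((n : ℝ) - m) / n = 1 - m / n := by field_simp
      _ ≤ _ := h2
  have h2 : 0 < ((n : ℝ) - m) / n := div_pos hd hn0
  rw [abs_of_pos (h2.trans_le h1)]
  calc (Real.log n - Real.log m)⁻¹ ≤ (((n : ℝ) - m) / n)⁻¹ := inv_anti₀ h2 h1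
    _ = _ := inv_div _ _

lemma prod_sum (X : ℕ) : ∑ q ∈ Finset.Icc 1 X ×ˢ Finset.Icc 1 X, ((q.1 : ℝ))⁻¹ * ((q.2 : ℝ))⁻¹ ≤
    (1 + Real.log X) ^ 2 := by
  have h1 := Pool.Agent.Y545.GP.harm X
  have h0 : 0 ≤ ∑ m ∈ Finset.Icc 1 X, ((m : ℝ))⁻¹ := Finset.sum_nonneg fun m _ => by positivity
  calc ∑ q ∈ Finset.Icc 1 X ×ˢ Finset.Icc 1 X, ((q.1 : ℝ))⁻¹ * ((q.2 : ℝ))⁻¹
      = (∑ m ∈ Finset.Icc 1 X, ((m : ℝ))⁻¹) * ∑ m ∈ Finset.Icc 1 X, ((m : ℝ))⁻¹ := by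
        rw [Finset.sum_product, Finset.sum_mul_sum]
    _ ≤ (1 + Real.log X) * (1 + Real.log X) := by gcongr
    _ = _ := by ring

/-- the pairs with `m < n` -/
lemma half1 (X : ℕ) : ∑ p ∈ (Finset.Icc 1 X ×ˢ Finset.Icc 1 X).filter (fun p => p.1 < p.2),
    ((p.1 : ℝ))⁻¹ * (((p.2 - p.1 : ℕ) : ℝ))⁻¹ ≤ (1 + Real.log X) ^ 2 := by
  refine le_trans ?_ (prod_sum X)
  have hinj : Set.InjOn (fun p : ℕ × ℕ => (p.1, p.2 - p.1))
      ((Finset.Icc 1 X ×ˢ Finset.Icc 1 X).filter (fun p => p.1 < p.2)) := by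
    rintro ⟨a, b⟩ h1 ⟨c, d⟩ h2 h
    rw [Finset.mem_coe, Finset.mem_filter] at h1 h2
    have h3 := h1.2
    have h4 := h2.2
    simp only [Prod.mk.injEq] at h h3 h4 ⊢
    omega
  calc ∑ p ∈ (Finset.Icc 1 X ×ˢ Finset.Icc 1 X).filter (fun p => p.1 < p.2),
        ((p.1 : ℝ))⁻¹ * (((p.2 - p.1 : ℕ) : ℝ))⁻¹
      = ∑ q ∈ ((Finset.Icc 1 X ×ˢ Finset.Icc 1 X).filter (fun p => p.1 < p.2)).image
          (fun p : ℕ × ℕ => (p.1, p.2 - p.1)), ((q.1 : ℝ))⁻¹ * ((q.2 : ℝ))⁻¹ :=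
        (Finset.sum_image (f := fun q : ℕ × ℕ => ((q.1 : ℝ))⁻¹ * ((q.2 : ℝ))⁻¹) hinj).symm
    _ ≤ _ := by
        apply Finset.sum_le_sum_of_subset_of_nonneg
        · intro q hq
          rw [Finset.mem_image] at hq
          obtain ⟨p, hp, rfl⟩ := hq
          rw [Finset.mem_filter, Finset.mem_product, Finset.mem_Icc, Finset.mem_Icc] at hp
          rw [Finset.mem_product, Finset.mem_Icc, Finset.mem_Icc]
          simp only
          omega
        · intro q _ _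
          positivity

/-- the pairs with `n < m` -/
lemma half2 (X : ℕ) : ∑ p ∈ (Finset.Icc 1 X ×ˢ Finset.Icc 1 X).filter (fun p => p.2 < p.1),
    ((p.2 : ℝ))⁻¹ * (((p.1 - p.2 : ℕ) : ℝ))⁻¹ ≤ (1 + Real.log X) ^ 2 := by
  refine le_trans ?_ (prod_sum X)
  have hinj : Set.InjOn (fun p : ℕ × ℕ => (p.2, p.1 - p.2))
      ((Finset.Icc 1 X ×ˢ Finset.Icc 1 X).filter (fun p => p.2 < p.1)) := by
    rintro ⟨a, b⟩ h1 ⟨c, d⟩ h2 h
    rw [Finset.mem_coe, Finset.mem_filter] at h1 h2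
    have h3 := h1.2
    have h4 := h2.2
    simp only [Prod.mk.injEq] at h h3 h4 ⊢
    omega
  calc ∑ p ∈ (Finset.Icc 1 X ×ˢ Finset.Icc 1 X).filter (fun p => p.2 < p.1),
        ((p.2 : ℝ))⁻¹ * (((p.1 - p.2 : ℕ) : ℝ))⁻¹
      = ∑ q ∈ ((Finset.Icc 1 X ×ˢ Finset.Icc 1 X).filter (fun p => p.2 < p.1)).image
          (fun p : ℕ × ℕ => (p.2, p.1 - p.2)), ((q.1 : ℝ))⁻¹ * ((q.2 : ℝ))⁻¹ :=
        (Finset.sum_image (f := fun q : ℕ × ℕ => ((q.1 : ℝ))⁻¹ * ((q.2 : ℝ))⁻¹) hinj).symm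
    _ ≤ _ := by
        apply Finset.sum_le_sum_of_subset_of_nonneg
        · intro q hq
          rw [Finset.mem_image] at hq
          obtain ⟨p, hp, rfl⟩ := hq
          rw [Finset.mem_filter, Finset.mem_product, Finset.mem_Icc, Finset.mem_Icc] at hp
          rw [Finset.mem_product, Finset.mem_Icc, Finset.mem_Icc]
          simp only
          omega
        · intro q _ _
          positivity

/-- the weight of a pair -/
lemma wgt {Y : ℝ} (hY : 0 ≤ Y) {p : ℕ × ℕ} (h1 : 1 ≤ p.1) (h2 : 1 ≤ p.2) (h : p.1 ≠ p.2) :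
    (√(ht p))⁻¹ * min 1 ((Y / ht p) ^ 2) * |lam p|⁻¹ ≤
      √Y * ((if p.1 < p.2 then ((p.1 : ℝ))⁻¹ * (((p.2 - p.1 : ℕ) : ℝ))⁻¹ else 0) +
        if p.2 < p.1 then ((p.2 : ℝ))⁻¹ * (((p.1 - p.2 : ℕ) : ℝ))⁻¹ else 0) := by
  have hp1 : (0 : ℝ) < p.1 := by exact_mod_cast h1
  have hp2 : (0 : ℝ) < p.2 := by exact_mod_cast h2
  have hht : 0 < ht p := mul_pos hp1 hp2
  have h3 := Pool.Agent.N879.PZ.Twaux.wt1 hY hht
  have h4 : (√(ht p))⁻¹ * min 1 ((Y / ht p) ^ 2) ≤ √Y * (ht p)⁻¹ := by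
    rw [← div_eq_mul_inv, le_div_iff₀ hht]
    exact h3
  rcases lt_or_gt_of_ne h with h5 | h5
  · rw [if_pos h5, if_neg (by omega), add_zero]
    have h6 : |lam p|⁻¹ ≤ (p.2 : ℝ) / ((p.2 : ℝ) - p.1) := lam_inv h1 h5
    have h7 : (p.1 : ℝ) < p.2 := by exact_mod_cast h5
    calc (√(ht p))⁻¹ * min 1 ((Y / ht p) ^ 2) * |lam p|⁻¹
        ≤ √Y * (ht p)⁻¹ * ((p.2 : ℝ) / ((p.2 : ℝ) - p.1)) :=
          mul_le_mul h4 h6 (by positivity) (by positivity)
      _ = √Y * (((p.1 : ℝ))⁻¹ * (((p.2 - p.1 : ℕ) : ℝ))⁻¹) := by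
          rw [Nat.cast_sub h5.le]
          unfold ht
          have h8 : (p.2 : ℝ) - p.1 ≠ 0 := (sub_pos.2 h7).ne'
          field_simp
  · rw [if_neg (by omega), if_pos h5, zero_add]
    have h6 : |lam p|⁻¹ ≤ (p.1 : ℝ) / ((p.1 : ℝ) - p.2) := by
      have := lam_inv h2 h5
      unfold lam
      rw [abs_sub_comm]
      exact this
    have h7 : (p.2 : ℝ) < p.1 := by exact_mod_cast h5
    calc (√(ht p))⁻¹ * min 1 ((Y / ht p) ^ 2) * |lam p|⁻¹
        ≤ √Y * (ht p)⁻¹ * ((p.1 : ℝ) / ((p.1 : ℝ) - p.2)) :=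
          mul_le_mul h4 h6 (by positivity) (by positivity)
      _ = √Y * (((p.2 : ℝ))⁻¹ * (((p.1 - p.2 : ℕ) : ℝ))⁻¹) := by
          rw [Nat.cast_sub h5.le]
          unfold ht
          have h8 : (p.1 : ℝ) - p.2 ≠ 0 := (sub_pos.2 h7).ne'
          field_simp

/-- the sum of the weights -/
lemma wsum {Y : ℝ} (hY : 0 ≤ Y) (X : ℕ) :
    ∑ p ∈ (FR X).filter (fun p => p.1 ≠ p.2), (√(ht p))⁻¹ * min 1 ((Y / ht p) ^ 2) * |lam p|⁻¹ ≤
      √Y * (2 * (1 + Real.log X) ^ 2) := by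
  have hs : (FR X).filter (fun p => p.1 ≠ p.2) ⊆ Finset.Icc 1 X ×ˢ Finset.Icc 1 X := by
    intro p hp
    exact (Finset.mem_filter.1 (Finset.mem_filter.1 (Finset.mem_filter.1 hp).1).1).1
  calc ∑ p ∈ (FR X).filter (fun p => p.1 ≠ p.2), (√(ht p))⁻¹ * min 1 ((Y / ht p) ^ 2) * |lam p|⁻¹
      ≤ ∑ p ∈ (FR X).filter (fun p => p.1 ≠ p.2),
        √Y * ((if p.1 < p.2 then ((p.1 : ℝ))⁻¹ * (((p.2 - p.1 : ℕ) : ℝ))⁻¹ else 0) +
        if p.2 < p.1 then ((p.2 : ℝ))⁻¹ * (((p.1 - p.2 : ℕ) : ℝ))⁻¹ else 0) := by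
        refine Finset.sum_le_sum fun p hp => ?_
        obtain ⟨h1, h2⟩ := Finset.mem_filter.1 hp
        obtain ⟨h3, h4, -, -⟩ := Pool.Agent.Y545.GP.mem_FR.1 h1
        exact wgt hY h3 h4 h2
    _ ≤ ∑ p ∈ Finset.Icc 1 X ×ˢ Finset.Icc 1 X,
        √Y * ((if p.1 < p.2 then ((p.1 : ℝ))⁻¹ * (((p.2 - p.1 : ℕ) : ℝ))⁻¹ else 0) +
        if p.2 < p.1 then ((p.2 : ℝ))⁻¹ * (((p.1 - p.2 : ℕ) : ℝ))⁻¹ else 0) := by
        refine Finset.sum_le_sum_of_subset_of_nonneg hs fun p _ _ => ?_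
        positivity
    _ = √Y * (∑ p ∈ (Finset.Icc 1 X ×ˢ Finset.Icc 1 X).filter (fun p => p.1 < p.2),
          ((p.1 : ℝ))⁻¹ * (((p.2 - p.1 : ℕ) : ℝ))⁻¹ +
        ∑ p ∈ (Finset.Icc 1 X ×ˢ Finset.Icc 1 X).filter (fun p => p.2 < p.1),
          ((p.2 : ℝ))⁻¹ * (((p.1 - p.2 : ℕ) : ℝ))⁻¹) := by
        rw [← Finset.mul_sum, Finset.sum_add_distrib, Finset.sum_filter, Finset.sum_filter]
    _ ≤ √Y * (2 * (1 + Real.log X) ^ 2) := by
        have h1 := half1 X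
        have h2 := half2 X
        refine mul_le_mul_of_nonneg_left ?_ (Real.sqrt_nonneg _)
        linarith

lemma diag_eq {X : ℕ} {p : ℕ × ℕ} (h : p ∈ FR X) (h1 : ¬ p.1 ≠ p.2) : p = (1, 1) := by
  obtain ⟨h3, h4, -, h5⟩ := Pool.Agent.Y545.GP.mem_FR.1 h
  have h6 : p.1 = p.2 := not_not.1 h1
  rw [h6, Nat.coprime_self] at h5
  exact Prod.ext (h6.trans h5) h5

end Smsaux

open Smsaux in
theorem t_SMS : S_SMS := by
  obtain ⟨CA, hCA, hA⟩ := Pool.Agent.N879.PZ.t_AFX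
  obtain ⟨CC, hCC, hC⟩ := Pool.Agent.N879.PZ.t_CRD
  obtain ⟨-, -, C0, hC0, hcr⟩ := Pool.Agent.Y545.GP.t_CR Pool.Agent.Y587.GP.t_V
  refine ⟨CA + 6 * CC + 3456 * CC, 3, by positivity, ?_⟩
  intro T h hT hh hhT
  have hT0 : 0 < T := by linarith
  obtain ⟨X, hX⟩ : ∃ X : ℕ, X = ⌈(3 * T) ^ 2⌉₊ := ⟨_, rfl⟩
  have hXl : (3 * T) ^ 2 ≤ X := by rw [hX]; exact Nat.le_ceil _
  have hXu : (X : ℝ) ≤ 10 * T ^ 2 := by
    have := Nat.ceil_lt_add_one (by positivity : 0 ≤ (3 * T) ^ 2)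
    rw [← hX] at this
    nlinarith
  have hX1 : (1 : ℝ) ≤ X := by nlinarith
  have hX1' : 1 ≤ X := by exact_mod_cast hX1
  have hlX : 0 ≤ Real.log X := Real.log_nonneg hX1
  obtain ⟨L, hL⟩ : ∃ L : ℝ, L = Real.log T := ⟨_, rfl⟩
  have hL1 : 1 ≤ L := by
    rw [hL, Real.le_log_iff_exp_le hT0]
    have := Real.exp_one_lt_d9
    linarith
  obtain ⟨l, hl⟩ : ∃ l : ℝ, l = 1 + Real.log X := ⟨_, rfl⟩
  have hl1 : 1 ≤ l := by rw [hl]; linarith
  have hlL : l ≤ 6 * L := by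
    have e1 : Real.log X ≤ Real.log 10 + 2 * L := by
      calc Real.log X ≤ Real.log (10 * T ^ 2) := Real.log_le_log (by linarith) hXu
        _ = Real.log 10 + 2 * L := by
            rw [Real.log_mul (by norm_num) (by positivity), Real.log_pow, hL]
            norm_num
    have e2 : Real.log 10 ≤ 3 := by
      rw [Real.log_le_iff_le_exp (by norm_num)]
      have h1 := Real.exp_one_gt_d9
      have e3 : Real.exp 3 = Real.exp 1 * Real.exp 1 * Real.exp 1 := by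
        rw [← Real.exp_add, ← Real.exp_add]; norm_num
      rw [e3]
      nlinarith [mul_pos (Real.exp_pos 1) (Real.exp_pos 1)]
    rw [hl]
    linarith
  have hTh : T ≤ T + h := by linarith
  have hu : uIcc T (T + h) = Icc T (T + h) := uIcc_of_le hTh
  -- the terms
  have hcc : ∀ p ∈ FR X, ContinuousOn (fun u => ((cr X p u : ℝ) : ℂ) * ee u p) (Icc T (T + h)) := by
    intro p hp
    refine ContinuousOn.mul ?_ (Pool.Agent.N879.PZ.M4laux.ee_cont p).continuousOn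
    refine continuous_ofReal.comp_continuousOn ?_
    intro x hx
    exact (hcr X p hp x (by linarith [hx.1])).1.continuousAt.continuousWithinAt
  have hci : ∀ p ∈ FR X, IntervalIntegrable (fun u => ((cr X p u : ℝ) : ℂ) * ee u p) volume T (T + h) :=
    fun p hp => (hcc p hp).intervalIntegrable_of_Icc hTh
  have hSc : ContinuousOn (fun u => ∑ p ∈ FR X, ((cr X p u : ℝ) : ℂ) * ee u p) (Icc T (T + h)) :=
    continuousOn_finsetSum _ fun p hp => hcc p hp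
  have hSi : IntervalIntegrable (fun u => ∑ p ∈ FR X, ((cr X p u : ℝ) : ℂ) * ee u p) volume T (T + h) :=
    hSc.intervalIntegrable_of_Icc hTh
  have hfi : IntervalIntegrable (fun u => (ff u : ℂ)) volume T (T + h) :=
    (continuous_ofReal.comp Pool.Agent.N879.PZ.M4laux.ff_cont).intervalIntegrable _ _
  -- the bound of the coefficients
  have hbd : ∀ p ∈ FR X, ∀ t ∈ Icc T (T + h), |cr X p t| ≤ CC * l * (√(ht p))⁻¹ * min 1 ((3 * T / ht p) ^ 2) ∧
      |t * deriv (cr X p) t| ≤ CC * l * (√(ht p))⁻¹ * min 1 ((3 * T / ht p) ^ 2) := by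
    intro p hp t ht'
    obtain ⟨h1, h2, -, -⟩ := Pool.Agent.Y545.GP.mem_FR.1 hp
    have hht := Pool.Agent.Y545.GP.ht_pos h1 h2
    have ht0 : 0 < t := by linarith [ht'.1]
    have h3 := hC X p t hX1' h1 h2 ht0
    rw [← hl] at h3
    have h4 : CC * l * (√(ht p))⁻¹ * min 1 ((t / ht p) ^ 2) ≤
        CC * l * (√(ht p))⁻¹ * min 1 ((3 * T / ht p) ^ 2) := by
      apply mul_le_mul_of_nonneg_left _ (by positivity)
      apply min_le_min le_rfl
      have h5 : t ≤ 3 * T := by linarith [ht'.2]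
      gcongr
    exact ⟨h3.1.trans h4, h3.2.trans h4⟩
  -- off the diagonal
  have hoff : ∀ p ∈ (FR X).filter (fun p => p.1 ≠ p.2), ‖∫ u in T..(T + h), ((cr X p u : ℝ) : ℂ) * ee u p‖ ≤
      4 * CC * l * ((√(ht p))⁻¹ * min 1 ((3 * T / ht p) ^ 2) * |lam p|⁻¹) := by
    intro p hp'
    obtain ⟨hp, hne⟩ := Finset.mem_filter.1 hp'
    obtain ⟨h1, h2, -, -⟩ := Pool.Agent.Y545.GP.mem_FR.1 hp
    have hht := Pool.Agent.Y545.GP.ht_pos h1 h2
    have hlam : lam p ≠ 0 := by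
      intro h0
      have h3 : Real.log p.2 = Real.log p.1 := by
        unfold lam at h0
        linarith
      have h4 := Real.log_injOn_pos (show (p.2 : ℝ) ∈ Set.Ioi 0 from by
        have : (0 : ℝ) < p.2 := by exact_mod_cast h2
        exact this) (show (p.1 : ℝ) ∈ Set.Ioi 0 from by
        have : (0 : ℝ) < p.1 := by exact_mod_cast h1
        exact this) h3
      exact hne (by exact_mod_cast h4.symm)
    have hib := Pool.Agent.N879.PZ.Twaux.ibp (cr X p) (deriv (cr X p)) T (T + h)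
      (CC * l * (√(ht p))⁻¹ * min 1 ((3 * T / ht p) ^ 2)) (lam p) hT0 hTh hlam
      (fun t ht' => (hcr X p hp t (by linarith [ht'.1])).1.hasDerivAt)
      (fun t ht' => (hcr X p hp t (by linarith [ht'.1])).2.1.continuousAt.continuousWithinAt)
      (fun t ht' => (hbd p hp t ht').1) (fun t ht' => (hbd p hp t ht').2)
    have hlog : Real.log ((T + h) / T) ≤ 2 := by
      have e1 : (T + h) / T ≤ 3 := by
        rw [div_le_iff₀ hT0]
        linarith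
      have e2 : Real.log ((T + h) / T) ≤ Real.log 3 :=
        Real.log_le_log (div_pos (by linarith) hT0) e1
      have e3 : Real.log 3 ≤ 2 := by
        have := Real.log_le_sub_one_of_pos (by norm_num : (0 : ℝ) < 3)
        linarith
      linarith
    have hm : 0 ≤ min 1 ((3 * T / ht p) ^ 2) := le_min zero_le_one (by positivity)
    calc ‖∫ u in T..(T + h), ((cr X p u : ℝ) : ℂ) * ee u p‖
        ≤ CC * l * (√(ht p))⁻¹ * min 1 ((3 * T / ht p) ^ 2) * (2 + Real.log ((T + h) / T)) * |lam p|⁻¹ := hib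
      _ ≤ CC * l * (√(ht p))⁻¹ * min 1 ((3 * T / ht p) ^ 2) * (2 + 2) * |lam p|⁻¹ := by gcongr
      _ = _ := by ring
  -- the diagonal
  have hdg : ∀ p ∈ (FR X).filter (fun p => ¬ p.1 ≠ p.2),
      ‖∫ u in T..(T + h), ((cr X p u : ℝ) : ℂ) * ee u p‖ ≤ CC * l * h := by
    intro p hp'
    obtain ⟨hp, hne⟩ := Finset.mem_filter.1 hp'
    have hp1 := diag_eq hp hne
    have h1 : ∀ u ∈ Set.uIoc T (T + h), ‖((cr X p u : ℝ) : ℂ) * ee u p‖ ≤ CC * l := by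
      intro u hu'
      rw [uIoc_of_le hTh] at hu'
      rw [norm_mul, Pool.Agent.N879.PZ.Twaux.ee_norm, mul_one, Complex.norm_real, Real.norm_eq_abs]
      refine (hbd p hp u ⟨hu'.1.le, hu'.2⟩).1.trans ?_
      have e1 : ht p = 1 := by rw [hp1]; simp [ht]
      rw [e1, Real.sqrt_one, inv_one, mul_one]
      calc CC * l * min 1 ((3 * T / 1) ^ 2) ≤ CC * l * 1 := by
            gcongr
            exact min_le_left _ _
        _ = CC * l := mul_one _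
    have h2 := intervalIntegral.norm_integral_le_of_norm_le_const h1
    rwa [add_sub_cancel_left, abs_of_nonneg hh] at h2
  have hdc : (((FR X).filter (fun p => ¬ p.1 ≠ p.2)).card : ℝ) ≤ 1 := by
    have : ((FR X).filter (fun p => ¬ p.1 ≠ p.2)).card ≤ 1 := by
      rw [Finset.card_le_one]
      intro a ha b hb
      obtain ⟨ha1, ha2⟩ := Finset.mem_filter.1 ha
      obtain ⟨hb1, hb2⟩ := Finset.mem_filter.1 hb
      rw [diag_eq ha1 ha2, diag_eq hb1 hb2]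
    exact_mod_cast this
  -- the sum
  have hsum : ‖∫ u in T..(T + h), ∑ p ∈ FR X, ((cr X p u : ℝ) : ℂ) * ee u p‖ ≤
      CC * l * h + 4 * CC * l * (√(3 * T) * (2 * l ^ 2)) := by
    rw [intervalIntegral.integral_finsetSum hci, ← Finset.sum_filter_add_sum_filter_not (FR X) (fun p => p.1 ≠ p.2)]
    refine (norm_add_le _ _).trans ?_
    have e1 : ‖∑ p ∈ (FR X).filter (fun p => p.1 ≠ p.2), ∫ u in T..(T + h), ((cr X p u : ℝ) : ℂ) * ee u p‖ ≤
        4 * CC * l * (√(3 * T) * (2 * l ^ 2)) := by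
      calc _ ≤ ∑ p ∈ (FR X).filter (fun p => p.1 ≠ p.2),
            4 * CC * l * ((√(ht p))⁻¹ * min 1 ((3 * T / ht p) ^ 2) * |lam p|⁻¹) :=
            (norm_sum_le _ _).trans (Finset.sum_le_sum hoff)
        _ = 4 * CC * l * ∑ p ∈ (FR X).filter (fun p => p.1 ≠ p.2),
            (√(ht p))⁻¹ * min 1 ((3 * T / ht p) ^ 2) * |lam p|⁻¹ := by rw [Finset.mul_sum]
        _ ≤ 4 * CC * l * (√(3 * T) * (2 * l ^ 2)) := by
            have := wsum (by positivity : 0 ≤ 3 * T) X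
            rw [← hl] at this
            gcongr
    have e2 : ‖∑ p ∈ (FR X).filter (fun p => ¬ p.1 ≠ p.2), ∫ u in T..(T + h), ((cr X p u : ℝ) : ℂ) * ee u p‖ ≤
        CC * l * h := by
      calc _ ≤ ∑ _p ∈ (FR X).filter (fun p => ¬ p.1 ≠ p.2), CC * l * h :=
            (norm_sum_le _ _).trans (Finset.sum_le_sum hdg)
        _ = (((FR X).filter (fun p => ¬ p.1 ≠ p.2)).card : ℝ) * (CC * l * h) := by
            rw [Finset.sum_const, nsmul_eq_mul]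
        _ ≤ 1 * (CC * l * h) := by
            apply mul_le_mul_of_nonneg_right hdc
            positivity
        _ = _ := one_mul _
    linarith
  -- the approximation
  have happ : ‖∫ u in T..(T + h), ((ff u : ℂ) - ∑ p ∈ FR X, ((cr X p u : ℝ) : ℂ) * ee u p)‖ ≤ CA * h := by
    have h1 : ∀ u ∈ Set.uIoc T (T + h), ‖(ff u : ℂ) - ∑ p ∈ FR X, ((cr X p u : ℝ) : ℂ) * ee u p‖ ≤ CA := by
      intro u hu'
      rw [uIoc_of_le hTh] at hu'
      have hu1 : 1 ≤ u := by linarith [hu'.1]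
      have hu2 : u ^ 2 ≤ X := (pow_le_pow_left₀ (by linarith) (by linarith [hu'.2] : u ≤ 3 * T) 2).trans hXl
      have h3 : u ^ (-(1 / 4) : ℝ) ≤ 1 := Real.rpow_le_one_of_one_le_of_nonpos hu1 (by norm_num)
      refine (hA u X hu1 hu2).trans ?_
      calc CA * u ^ (-(1 / 4) : ℝ) ≤ CA * 1 := by gcongr
        _ = CA := mul_one _
    have h2 := intervalIntegral.norm_integral_le_of_norm_le_const h1
    rwa [add_sub_cancel_left, abs_of_nonneg hh] at h2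
  have hmain : ∫ u in T..(T + h), ff u ≤ CA * h + (CC * l * h + 4 * CC * l * (√(3 * T) * (2 * l ^ 2))) := by
    have e1 : ((∫ u in T..(T + h), ff u : ℝ) : ℂ) =
        (∫ u in T..(T + h), ((ff u : ℂ) - ∑ p ∈ FR X, ((cr X p u : ℝ) : ℂ) * ee u p)) +
        ∫ u in T..(T + h), ∑ p ∈ FR X, ((cr X p u : ℝ) : ℂ) * ee u p := by
      rw [intervalIntegral.integral_sub hfi hSi, sub_add_cancel, intervalIntegral.integral_ofReal]
    have e2 : ‖((∫ u in T..(T + h), ff u : ℝ) : ℂ)‖ ≤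
        CA * h + (CC * l * h + 4 * CC * l * (√(3 * T) * (2 * l ^ 2))) := by
      rw [e1]
      exact (norm_add_le _ _).trans (add_le_add happ hsum)
    rw [Complex.norm_real, Real.norm_eq_abs] at e2
    exact (le_abs_self _).trans e2
  have hz : ∫ u in T..(T + h), ‖z u‖ ^ 2 = ∫ u in T..(T + h), ff u := rfl
  rw [hz, ← hL]
  refine hmain.trans ?_
  obtain ⟨S, hS⟩ : ∃ S : ℝ, S = T ^ (1 / 2 : ℝ) := ⟨_, rfl⟩
  have hS0 : 0 ≤ S := by rw [hS]; positivity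
  have h3T : √(3 * T) ≤ 2 * S := by
    rw [Real.sqrt_mul (by norm_num), hS, ← Real.sqrt_eq_rpow]
    have : √3 ≤ 2 := by
      rw [Real.sqrt_le_left (by norm_num)]
      norm_num
    gcongr
  rw [← hS]
  have hl3 : l ^ 3 ≤ 216 * L ^ 3 := by
    calc l ^ 3 ≤ (6 * L) ^ 3 := pow_le_pow_left₀ (by linarith) hlL 3
      _ = _ := by ring
  have hL3 : L ≤ L ^ 3 := by
    calc L = L ^ 1 := (pow_one L).symm
      _ ≤ L ^ 3 := pow_le_pow_right₀ hL1 (by norm_num)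
  have hL31 : 1 ≤ L ^ 3 := one_le_pow₀ hL1
  have a1 : CA * h ≤ CA * h * L ^ 3 := le_mul_of_one_le_right (by positivity) hL31
  have a2 : CC * l * h ≤ 6 * CC * h * L ^ 3 := by
    calc CC * l * h ≤ CC * (6 * L ^ 3) * h := by
          gcongr
          linarith
      _ = _ := by ring
  have a3 : 4 * CC * l * (√(3 * T) * (2 * l ^ 2)) ≤ 3456 * CC * S * L ^ 3 := by
    calc 4 * CC * l * (√(3 * T) * (2 * l ^ 2)) = 8 * CC * √(3 * T) * l ^ 3 := by ring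
      _ ≤ 8 * CC * (2 * S) * (216 * L ^ 3) := by gcongr
      _ = _ := by ring
  have b1 : 0 ≤ CA * S * L ^ 3 := by positivity
  have b2 : 0 ≤ CC * S * L ^ 3 := by positivity
  have b3 : 0 ≤ CC * h * L ^ 3 := by positivity
  nlinarith

end Pool.Agent.N879.PU
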