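import Pool.Agent.H27.G.R_seed8.TH612.GS.Stm2
import Pool.Agent.H27.G.R_pool_sql_team_seeded_63374d34.N879.PZ.Stm

set_option autoImplicit false

/-!
Project PU (helper879): shifted moments of zeta with separate shifts in `[0,U]`, over `[T,T+H]`, `H U` larger than
`T` by a power of `log T`. Definitions and statements.
-/

namespace Pool.Agent.N879.PU

open Complex Filter Topology MeasureTheory Set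
open Pool.Agent.TH612.GS (z zN PN mP SN SP GM zr Sep)
open Pool.Agent.N879.PZ (Wb)

noncomputable section

/-- the regular points: the second moment of zeta over `[t, t+U]` is at most `U V` -/
def Gu (U V : ℝ) : Set ℝ := {t | ∫ u in t..(t + U), ‖z u‖ ^ 2 ≤ U * V}

/-- the factors -/
def fs {k : ℕ} (f : ℝ → ℂ) (i : Fin k ⊕ Fin k) (u : ℝ) : ℂ :=
  Sum.elim (fun _ => f u) (fun _ => (starRingEnd ℂ) (f u)) i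

/-- EM: zeta by its partial sum -/
def S_EM : Prop := ∃ C : ℝ, 0 < C ∧ ∀ (T u : ℝ) (X : ℕ), 3 ≤ T → T ≤ u → u ≤ 3 * T → 4 * T ≤ X → (X : ℝ) ≤ 8 * T →
  ‖z u - PN X u‖ ≤ C * T ^ (-(1 / 2) : ℝ)

/-- MVS: mean value theorem for a dyadic block -/
def S_MVS : Prop := ∃ C : ℝ, 0 < C ∧ ∀ (M : ℕ) (a b : ℝ) (c : ℕ → ℂ), 1 ≤ M → a ≤ b →
  ∫ u in a..b, ‖∑ n ∈ Finset.Icc M (2 * M), c n * (n : ℂ) ^ (-(I * u))‖ ^ 2 ≤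
    C * ((b - a) + M) * ∑ n ∈ Finset.Icc M (2 * M), ‖c n‖ ^ 2

/-- MVT: the dual mean value theorem for a dyadic block -/
def S_MVT : Prop := ∃ C : ℝ, 0 < C ∧ ∀ (M : ℕ) (a b : ℝ) (F : ℝ → ℂ), 1 ≤ M → a ≤ b → Wb a b F →
  ∑ n ∈ Finset.Icc M (2 * M), ‖∫ t in a..b, F t * (n : ℂ) ^ (-(I * t))‖ ^ 2 ≤
    C * ((b - a) + M) * ∫ t in a..b, ‖F t‖ ^ 2

/-- KU: zeta minus a short Dirichlet polynomial, as an operator -/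
def S_KU : Prop := ∃ (C : ℝ) (A : ℕ), 0 < C ∧ ∀ (T H U : ℝ) (N : ℕ) (F : ℝ → ℂ), 3 ≤ T → 1 ≤ H → H ≤ T → 1 ≤ U →
  U ≤ T → 1 ≤ N → (N : ℝ) ≤ T → Wb T (T + H) F →
  ∫ c in (0 : ℝ)..U, ‖∫ t in T..(T + H), F t * (z (t + c) - PN N (t + c))‖ ^ 2 ≤
    C * Real.log T ^ A * (H * U / N + T) * ∫ t in T..(T + H), ‖F t‖ ^ 2

/-- SMS: second moment of zeta in short intervals -/
def S_SMS : Prop := ∃ (C : ℝ) (A : ℕ), 0 < C ∧ ∀ T h : ℝ, 3 ≤ T → 0 ≤ h → h ≤ 2 * T →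
  ∫ u in T..(T + h), ‖z u‖ ^ 2 ≤ C * (h + T ^ (1 / 2 : ℝ)) * Real.log T ^ A

/-- REG: almost all points are regular -/
def S_REG : Prop := ∃ (C : ℝ) (A : ℕ), 0 < C ∧ ∀ T H U V : ℝ, 3 ≤ T → 1 ≤ H → H ≤ T → 1 ≤ U → U ≤ T → T ≤ H * U →
  0 < V →
  volume (Icc T (T + H) \ Gu U V) ≤ ENNReal.ofReal (C * H * Real.log T ^ A / V) ∧
  (T ^ (1 / 2 : ℝ) ≤ U → ∀ t ∈ Icc T (T + H), ∫ u in t..(t + U), ‖z u‖ ^ 2 ≤ C * U * Real.log T ^ A)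

/-- WINU: windows of the model -/
def S_WINU : Prop := ∃ C : ℝ, 0 < C ∧ ∀ (U t : ℝ) (N : ℕ), 1 ≤ U → 1 ≤ N → (N : ℝ) ≤ U →
  ∫ c in (0 : ℝ)..U, ‖PN N (t + c)‖ ^ 2 ≤ C * U * (1 + Real.log N) ^ 2

/-- TELU: replacement of all the factors -/
def S_TELU : Prop := ∀ (ι : Type) [Fintype ι] (a b U K W : ℝ) (G : Set ℝ) (f g : ι → ℝ → ℂ), a ≤ b → 0 < U → 0 ≤ K →
  0 ≤ W → MeasurableSet G → (∀ i, Continuous (f i)) → (∀ i, Continuous (g i)) →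
  (∀ i, ∀ F : ℝ → ℂ, Wb a b F → ∫ c in (0 : ℝ)..U, ‖∫ t in a..b, F t * (f i (t + c) - g i (t + c))‖ ^ 2 ≤
    K * ∫ t in a..b, ‖F t‖ ^ 2) →
  (∀ i, ∀ t ∈ G, t ∈ Icc a b → ∫ c in (0 : ℝ)..U, ‖f i (t + c)‖ ^ 2 ≤ W) →
  (∀ i, ∀ t ∈ G, t ∈ Icc a b → ∫ c in (0 : ℝ)..U, ‖g i (t + c)‖ ^ 2 ≤ W) →
  ∫⁻ γ, ENNReal.ofReal (‖∫ t in G ∩ Icc a b, (∏ i, f i (t + γ i) - ∏ i, g i (t + γ i))‖ ^ 2) ∂(mP ι U) ≤
    ENNReal.ofReal (4 ^ Fintype.card ι * K * W ^ (Fintype.card ι - 1) * (b - a))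

/-- IRU: mean values over the shifts -/
def S_IRU : Prop := ∀ (ι : Type) [Fintype ι] (a b U W : ℝ) (D : Set ℝ) (g : ι → ℝ → ℂ), a ≤ b → 0 < U → 0 ≤ W →
  MeasurableSet D → D ⊆ Icc a b → (∀ i, Continuous (g i)) →
  (∀ i, ∀ t ∈ D, ∫ c in (0 : ℝ)..U, ‖g i (t + c)‖ ^ 2 ≤ U * W) →
  (Continuous fun γ : ι → ℝ => ∫ t in D, ∏ i, g i (t + γ i)) ∧
  ∫⁻ γ, ENNReal.ofReal ‖∫ t in D, ∏ i, g i (t + γ i)‖ ∂(mP ι U) ≤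
    ENNReal.ofReal ((volume D).toReal * (U * √W) ^ Fintype.card ι)

/-- the theorem -/
def S_MAINU : Prop := ∀ k : ℕ, ∃ δ C₀ T₀ : ℝ, 0 < δ ∧ ∀ T H U : ℝ, T₀ ≤ T → H ≤ T → U ≤ T →
  T * Real.log T ^ C₀ ≤ H * U →
  volume (Icc T (T + H) \ Gu U ((H * U / T) ^ δ)) ≤ ENNReal.ofReal (H * (H * U / T) ^ (-δ)) ∧
  (T ^ (1 / 2 : ℝ) ≤ U → Icc T (T + H) ⊆ Gu U ((H * U / T) ^ δ)) ∧
  mP (Fin k ⊕ Fin k) U {γ | H * (H * U / T) ^ (-δ) <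
    ‖(∫ t in Gu U ((H * U / T) ^ δ) ∩ Icc T (T + H), ∏ i, fs z i (t + γ i)) - H * zr γ‖} ≤
      ENNReal.ofReal (U ^ (2 * k) * (H * U / T) ^ (-δ))

end

end Pool.Agent.N879.PU
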